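import Pool.Agent.Run7.h875.Multi

/-!
# A positive proportion of all elliptic curves over `k(t)`, over all Galois 2-extensions unramified
# where the cubic polynomial has a zero, and all their twists, at once

Let `k` be any finite field of characteristic at least five and `K = k(t)`. For an elliptic curve
`E : y ^ 2 = x ^ 3 + a x + b` over `K` call a prime `P` of `k[t]` inert if `X ^ 3 + a X + b` has no zero
modulo `P` (by Chebotarev's theorem these are a third or two thirds of all primes).

Theorem. Among all the elliptic curves `E` over `K` with non-constant `j`-invariant, ordered by the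
height, a positive proportion has the following property for ALL finite Galois extensions `M` of `K` of
2-power degree in which the primes that are not inert are unramified and the primes of additive
reduction of `E` have residue degree at most two, and for ALL the twists `E_D`, `D` a product of inert
primes and a constant: the group `E_D(M)` is finite of odd order and the Tate-Shafarevich group of `E_D`
over `M` has no element of order two. These fields `M` have unbounded degree and genus; examples are
all the fields `K(√D_1, ..., √D_r)`, `D_i` products of inert primes and constants, for all `r`. Moreover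
any finite Galois extension `M_0` of `K` given in advance (with arbitrary ramification) satisfies the
conditions for a positive proportion of the curves.

By the known theorem of Artin, Tate and Milne (Kato-Trihan) each of these curves `E_D` over each of the
fields `M` satisfies the full conjecture of Birch and Swinnerton-Dyer, with rank and order of vanishing
zero. In `PositiveProportionOfCurves` the field is `K`, and in `MP_9faec4_nt.PositiveProportionTwoExtensions`
the curves depend on the field `M`, which is fixed in advance.

The proof: the subset `J` of the auxiliary primes which is constructed there by linear algebra depends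
only on the cubic field `L = K(θ)`, `θ ^ 3 + a θ + b = 0`, and not on `M` and `D`. For a class in the
2-Selmer group of `E_D` over `M` let `x` be its element of `M(θ)` modulo squares. The valuation of `x` is
even outside `J` and the inert primes (there the reduction is good or of type `I_1`, as `M` is
unramified), and at the primes over the `Q` in `J` at which `θ` is a unit its square class is trivial or
that of `Q θ` (`Loc4`; here the residue field of `M` may contain the square roots of `- a`). These
conditions are stable under `Gal(M(θ) / L)`, and if `x` is in `L` then they imply the conditions over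
`L`, as `M(θ)` is unramified over `L` and the primes of `L` over `Q` at which `θ` is a unit split
completely in `M(θ)` (by the restriction of inertia and decomposition groups to `M`, `Up`), and as at the
inert primes and at the other primes over `Q` the valuation is even because the norm is a square. The
descent of `N692.PM.Tow` along steps of degree two shows that `x` is a square.
-/

set_option autoImplicit false
set_option linter.all false

namespace Pool.Agent.Results.MP_48b749_nt.AllTwoExtensionsAtOnce

open Polynomial Filter IsDedekindDomain Pool.Agent.TH115.GD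
open scoped Classical

/-- `y ^ 2 = x ^ 3 + a x + b` is a minimal equation of an elliptic curve over `k(t)` of height at
most `N` whose `j`-invariant is not constant: as `j = 1728 * 4 a ^ 3 / (4 a ^ 3 + 27 b ^ 2)`, the last
condition says that there are no constants `c`, `d`, not both zero, with `c a ^ 3 = d b ^ 2`. -/
structure IsCurve {k : Type} [Field k] (N : ℕ) (a b : k[X]) : Prop where
  deg_a : a.natDegree ≤ 4 * N
  deg_b : b.natDegree ≤ 6 * N
  elliptic : 4 * a ^ 3 + 27 * b ^ 2 ≠ 0
  minimal : ∀ Q : k[X], Irreducible Q → ¬ (Q ^ 4 ∣ a ∧ Q ^ 6 ∣ b)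
  nonconstant : ¬ ∃ c d : k, (c ≠ 0 ∨ d ≠ 0) ∧ C c * a ^ 3 = C d * b ^ 2

/-- The pairs `(a, b)` for which `y ^ 2 = x ^ 3 + a x + b` is a minimal equation of an elliptic curve over
`k(t)` with non-constant `j`-invariant and height at most `N`. -/
def Curves (k : Type) [Field k] (N : ℕ) : Set (k[X] × k[X]) := {p | IsCurve N p.1 p.2}

/-- The curve `y ^ 2 = x ^ 3 + a x + b` over an extension `M` of `k(t)`. -/
noncomputable def curve {k : Type} [Field k] (M : Type) [Field M] [Algebra k[X] M]
    (p : k[X] × k[X]) : WeierstrassCurve M :=
  ⟨0, 0, 0, algebraMap k[X] M p.1, algebraMap k[X] M p.2⟩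

/-- The quadratic twist by `D`: the pair `(a D ^ 2, b D ^ 3)`. -/
noncomputable def twist {k : Type} [Field k] (D : k[X]) (p : k[X] × k[X]) : k[X] × k[X] :=
  (p.1 * D ^ 2, p.2 * D ^ 3)

/-- `D` is not zero, and `X ^ 3 + a X + b` has no zero modulo any irreducible divisor of `D`. -/
def Inert {k : Type} [Field k] (p : k[X] × k[X]) (D : k[X]) : Prop :=
  D ≠ 0 ∧ ∀ P : k[X], Irreducible P → P ∣ D → ∀ z : k[X], ¬ P ∣ z ^ 3 + p.1 * z + p.2

/-- The conditions on the extension `M` with integral closure `R` of `k[t]`: the irreducible polynomials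
`P` modulo which `X ^ 3 + a X + b` has a zero are unramified in `R`, and the residue fields of `R` at the
maximal ideals over an irreducible polynomial `Q` which divides `a` and `b` (additive reduction) have at
most degree two over `k[t] / (Q)`. -/
structure Allowed {k : Type} [Field k] (R : Type) [CommRing R] [IsDedekindDomain R] [Algebra k[X] R]
    (p : k[X] × k[X]) : Prop where
  unramified : ∀ P : k[X], Irreducible P → (∃ z : k[X], P ∣ z ^ 3 + p.1 * z + p.2) →
    ∀ w : HeightOneSpectrum R, algebraMap k[X] R P ∈ w.asIdeal →
      algebraMap k[X] R P ∉ w.asIdeal ^ 2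
  degree : ∀ Q : k[X], Irreducible Q → Q ∣ p.1 → Q ∣ p.2 →
    ∀ w : HeightOneSpectrum R, algebraMap k[X] R Q ∈ w.asIdeal →
      Nat.card (R ⧸ w.asIdeal) ≤ Nat.card (k[X] ⧸ Ideal.span {Q}) ^ 2

/-- `R` is a Dedekind ring with field of fractions `M`. Every continuous cocycle of
`Gal(Sep M / M)` with values in `W(Sep M)` whose class is killed by a power of two and which is a
coboundary over the completion of `M` at every maximal ideal of `R` is a coboundary. In particular the
2-primary part of the Tate-Shafarevich group of `W` over `M` is zero. -/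
def ShaTwoZero (R : Type) {M : Type} [Field M] [CommRing R] [IsDedekindDomain R] [Algebra R M]
    [IsFractionRing R M] (W : WeierstrassCurve M) : Prop :=
  ∀ f : (Sep M ≃ₐ[M] Sep M) → Pt W (Sep M), IsCoc W f →
    (∀ v : HeightOneSpectrum R, LocTriv W (Comp R M v) (Sep (Comp R M v)) f) →
    (∃ (n : ℕ) (Q : Pt W (Sep M)), ∀ σ, 2 ^ n • f σ = act W (rs M σ) Q - Q) →
    ∃ Q : Pt W (Sep M), ∀ σ, f σ = act W (rs M σ) Q - Q

/-- For all the twists by the `D` in `Inert p`: the group of points over `M` is finite of odd order, and
the 2-primary part of the Tate-Shafarevich group over `M` is zero. -/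
def TwistsTrivial {k : Type} [Field k] (R M : Type) [Field M] [Algebra k[X] M] [CommRing R]
    [IsDedekindDomain R] [Algebra R M] [IsFractionRing R M] (p : k[X] × k[X]) : Prop :=
  ∀ D : k[X], Inert p D → Finite (Pt (curve M (twist D p)) M) ∧
    Odd (Nat.card (Pt (curve M (twist D p)) M)) ∧ ShaTwoZero R (curve M (twist D p))

/-- `TwistsTrivial` over all the finite Galois extensions `M` of `K` of 2-power degree which satisfy the
conditions. -/
def AllExtensions {k : Type} [Field k] (K : Type) [Field K] [Algebra k[X] K]
    (p : k[X] × k[X]) : Prop :=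
  ∀ (M : Type) [Field M] [Algebra K M] [Algebra k[X] M] [IsScalarTower k[X] K M]
    [FiniteDimensional K M] [IsGalois K M] (R : Type) [CommRing R] [IsDedekindDomain R]
    [Algebra R M] [IsFractionRing R M] [Algebra k[X] R] [IsScalarTower k[X] R M]
    [IsIntegralClosure R k[X] M] (n : ℕ), Module.finrank K M = 2 ^ n → Allowed R p →
    TwistsTrivial R M p

/-- `TwistsTrivial` over all the fields `M` generated over `K` by finitely many square roots of
polynomials in `Inert p`. -/
def AllMultiquadratic {k : Type} [Field k] (K : Type) [Field K] [Algebra k[X] K]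
    (p : k[X] × k[X]) : Prop :=
  ∀ (M : Type) [Field M] [Algebra K M] [Algebra k[X] M] [IsScalarTower k[X] K M]
    [FiniteDimensional K M] (R : Type) [CommRing R] [IsDedekindDomain R]
    [Algebra R M] [IsFractionRing R M] [Algebra k[X] R] [IsScalarTower k[X] R M]
    [IsIntegralClosure R k[X] M],
    (∃ s : Set M, IntermediateField.adjoin K s = ⊤ ∧
      ∀ x ∈ s, ∃ D : k[X], Inert p D ∧ x ^ 2 = algebraMap k[X] M D) → TwistsTrivial R M p

/-- Let `k` be a finite field of characteristic at least five and `M₀` a finite Galois extension of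
`K = k(t)`, with integral closure `R₀` of `k[t]`. There is a positive constant `c` such that for all
large `N` at least `c` times the number of all the curves of height at most `N` have the following
properties: `M₀` satisfies the conditions in `Allowed`, and for all the Galois extensions `M` of `K` of
2-power degree which satisfy these conditions, for all the fields `M` generated by square roots of
products of inert primes, and for all the twists by products of inert primes, the group of points over
`M` is finite of odd order and the 2-primary part of the Tate-Shafarevich group over `M` is zero. -/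
theorem result (k : Type) [Field k] [Finite k] (h6 : (6 : k) ≠ 0) (K : Type) [Field K]
    [Algebra k[X] K] [IsFractionRing k[X] K] (M₀ : Type) [Field M₀] [Algebra K M₀]
    [Algebra k[X] M₀] [IsScalarTower k[X] K M₀] [FiniteDimensional K M₀] [IsGalois K M₀]
    (R₀ : Type) [CommRing R₀] [IsDedekindDomain R₀] [Algebra R₀ M₀] [IsFractionRing R₀ M₀]
    [Algebra k[X] R₀] [IsScalarTower k[X] R₀ M₀] [IsIntegralClosure R₀ k[X] M₀] :
    (∀ N : ℕ, (Curves k N).Finite) ∧
    ∃ c : ℝ, 0 < c ∧ ∀ᶠ N : ℕ in atTop,
      0 < (Curves k N).ncard ∧
      c * ((Curves k N).ncard : ℝ) ≤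
        (({p ∈ Curves k N | Allowed R₀ p ∧ AllExtensions K p ∧ AllMultiquadratic K p}).ncard :
          ℝ) := by
  have h2 : (2 : k) ≠ 0 := by
    intro h
    apply h6
    have : (6 : k) = 2 * 3 := by norm_num
    rw [this, h, zero_mul]
  have hcrv : ∀ (N : ℕ) (a b : k[X]), Pool.Agent.N874.PP.Crv N a b ↔ IsCurve N a b := by
    intro N a b
    constructor
    · rintro ⟨h1, h2, h3, h4, h5⟩
      refine ⟨h1, h2, h3, fun Q hQ h => h4 Q hQ h.1 h.2, ?_⟩
      rintro ⟨c, d, hcd, h⟩
      exact h5 c d hcd h
    · rintro ⟨h1, h2, h3, h4, h5⟩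
      exact ⟨h1, h2, h3, fun Q hQ ha hb => h4 Q hQ ⟨ha, hb⟩, fun c d hcd h => h5 ⟨c, d, hcd, h⟩⟩
  have hset : ∀ N : ℕ, Curves k N = {p : k[X] × k[X] | Pool.Agent.N874.PP.Crv N p.1 p.2} := by
    intro N
    ext p
    exact (hcrv N p.1 p.2).symm
  have hfin : ∀ N : ℕ, (Curves k N).Finite := fun N => by
    rw [hset]
    exact Pool.Agent.N874.PP.crv_fin N
  have hin : ∀ (p : k[X] × k[X]) (D : k[X]), Inert p D → Run7.h875.InD p.1 p.2 D :=
    fun p D hD => ⟨hD.1, fun P hP hPD => ⟨hP, hD.2 P hP hPD⟩⟩
  refine ⟨hfin, ?_⟩
  obtain ⟨c, hc, N₀, h⟩ := Run7.h875.final3 k h6 K M₀ R₀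
  have hq : (0 : ℝ) < Nat.card k := by exact_mod_cast Nat.card_pos
  refine ⟨c / (Nat.card k : ℝ) ^ 2, by positivity, ?_⟩
  filter_upwards [eventually_ge_atTop N₀] with N hN
  have h1 := h N hN
  have h2' : {p : k[X] × k[X] | Pool.Agent.N874.PP.Crv N p.1 p.2 ∧
      Run7.h875.AdmP R₀ p ∧ Run7.h875.GoodAll K p} ⊆
      {p ∈ Curves k N | Allowed R₀ p ∧ AllExtensions K p ∧ AllMultiquadratic K p} := by
    rintro p ⟨hp, hA, hG⟩
    have key : ∀ (M : Type) [Field M] [Algebra K M] [Algebra k[X] M] [IsScalarTower k[X] K M]
        [FiniteDimensional K M] [IsGalois K M] (R : Type) [CommRing R] [IsDedekindDomain R]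
        [Algebra R M] [IsFractionRing R M] [Algebra k[X] R] [IsScalarTower k[X] R M]
        [IsIntegralClosure R k[X] M] (n : ℕ), Module.finrank K M = 2 ^ n →
        Run7.h875.AdmP R p → TwistsTrivial R M p := by
      intro M _ _ _ _ _ _ R _ _ _ _ _ _ _ n hn hR D hD
      obtain ⟨hd, hf, hsha⟩ := hG M R n hn hR D (hin p D hD)
      have hf' : Finite (Pt (curve M (twist D p)) M) := hf
      exact ⟨hf', Pool.Agent.N874.PP.odd_card (G := Pt (curve M (twist D p)) M) hd, hsha⟩
    refine ⟨(hcrv N p.1 p.2).1 hp, ⟨hA.unr, hA.deg⟩, ?_, ?_⟩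
    · intro M _ _ _ _ _ _ R _ _ _ _ _ _ _ n hn hR
      exact key M R n hn ⟨hR.unramified, hR.degree⟩
    · intro M _ _ _ _ _ R _ _ _ _ _ _ _ hs
      have hs' : Run7.h875.BySq K (M := M) (Run7.h875.InD p.1 p.2) := by
        obtain ⟨s, hs1, hs2⟩ := hs
        refine ⟨s, hs1, fun x hx => ?_⟩
        obtain ⟨D, hD, hxD⟩ := hs2 x hx
        exact ⟨D, hin p D hD, hxD⟩
      haveI := Run7.h875.bysq_galois h2 hs' (fun D hD => hD.1)
      obtain ⟨n, hn⟩ := Run7.h875.bysq_card hs'
      exact key M R n hn (Run7.h875.bysq_adm h2 R hs')
  have h3 := Set.ncard_le_ncard h2' ((hfin N).subset fun p hp => hp.1)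
  have h3' : (({p : k[X] × k[X] | Pool.Agent.N874.PP.Crv N p.1 p.2 ∧
      Run7.h875.AdmP R₀ p ∧ Run7.h875.GoodAll K p}).ncard : ℝ) ≤
      (({p ∈ Curves k N | Allowed R₀ p ∧ AllExtensions K p ∧ AllMultiquadratic K p}).ncard : ℝ) :=
    by exact_mod_cast h3
  have h4 : ((Curves k N).ncard : ℝ) ≤ (Nat.card k : ℝ) ^ (10 * N + 2) := by
    rw [hset]
    exact_mod_cast Pool.Agent.N874.PP.crv_card (k := k) N
  have h5 := Set.ncard_le_ncard (fun p hp => hp.1 : {p ∈ Curves k N | Allowed R₀ p ∧
      AllExtensions K p ∧ AllMultiquadratic K p} ⊆ Curves k N) (hfin N)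
  have h6' : (0 : ℝ) < (({p ∈ Curves k N | Allowed R₀ p ∧ AllExtensions K p ∧
      AllMultiquadratic K p}).ncard : ℝ) :=
    lt_of_lt_of_le (by positivity) (h1.trans h3')
  refine ⟨lt_of_lt_of_le (by exact_mod_cast h6') h5, ?_⟩
  calc c / (Nat.card k : ℝ) ^ 2 * ((Curves k N).ncard : ℝ)
      ≤ c / (Nat.card k : ℝ) ^ 2 * (Nat.card k : ℝ) ^ (10 * N + 2) := by gcongr
    _ = c * (Nat.card k : ℝ) ^ (10 * N) := by
      rw [pow_add]
      field_simp
    _ ≤ _ := h1.trans h3'

end Pool.Agent.Results.MP_48b749_nt.AllTwoExtensionsAtOnce
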