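import Pool.Agent.Run7.h286.PL.EllLaw

/-!
# All moments and the exact law of the 2-Selmer groups of the quadratic twists of an elliptic curve
over `k(t)`, `k` a fixed finite field

Let `k` be a finite field of characteristic at least five with `q` elements, `K = k(t)`, and
`E : y ^ 2 = x ^ 3 + a x + b` with `a`, `b` in `k[t]`, `deg a ≤ 4 N`, `deg b ≤ 6 N`, `N ≥ 1`, such that
`4 a ^ 3 + 27 b ^ 2` is squarefree and `x ^ 3 + a_∞ x + b_∞` is irreducible over `k`, where `a_∞`, `b_∞` are the
coefficients of `t ^ (4 N)`, `t ^ (6 N)` in `a`, `b`. These are a positive proportion of all `(a, b)`; the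
`j`-invariant is not constant. For `D` in `k[t]`, squarefree, let `E_D : D y ^ 2 = x ^ 3 + a x + b`; these are
all the quadratic twists of `E`. Let `Sel(D)` be the 2-Selmer group of `E_D`.

Theorem. Let `u` in `k`, `u ≠ 0`, and let `D` run through the squarefree polynomials of degree `m` with
leading coefficient `u` which are prime to `4 a ^ 3 + 27 b ^ 2`, `m → ∞` (`q`, `a`, `b` are fixed).
1. The average of `|Sel(D)| ^ j` tends to `(1 + 2) (1 + 4) ... (1 + 2 ^ j)` for all `j`: in particular the
   average order of the 2-Selmer group tends to `3`.
2. The proportion of the `D` with `dim Sel(D) = d` tends to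
   `p_d = ∏_{j ≥ 0} (1 + 2 ^ (-j)) ^ (-1) ∏_{i = 1}^d 2 / (2 ^ i - 1)`, the law of Poonen and Rains.
3. The average of `φ(dim Sel(D))` tends to `∑ p_d φ(d)` for every `φ` of at most exponential growth; the
   average of `dim Sel(D)` tends to `∑_{j ≥ 0} 1 / (2 ^ j + 1) = 1.2645`, and half of the dimensions are even.
4. For every `D`: `E_D(K)` has no element of order two, `|Sel(D)| = [E_D(K) : 2 E_D(K)] |Sha(E_D)[2]|`, and
   if `Sel(D)` is trivial then `E_D(K)` is uniquely divisible by two and the 2-primary part of the Tate-Shafarevich
   group of `E_D` is zero; this is so for a proportion `p_0 > 0.2097` of the `D`.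

So the average rank of all quadratic twists of `E`, in the natural ordering by the degree of `D` and over
a fixed finite field, is at most `1.2646` (the bound from the one-level density is `3 / 2`, A. Comeau-Lapointe),
the rank is at most one for more than `62.9` percent of the twists, and for more than `20.97` percent
`E_D(K)` is finite of odd order and the whole conjecture of Birch and Swinnerton-Dyer holds (Artin, Tate,
Milne).

`E_D(L)` is given as the Picard group of the affine coordinate ring `L[x, y] / (y ^ 2 - F)`
(`Pool/Agent/Y713/SE/Stm.lean`) with `F = x ^ 3 + a D ^ 2 x + b D ^ 3`.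

The definitions and the lemmas are in `Pool/Agent/Run7/h286/PL/EllLaw.lean` and `SelDef.lean` (the 2-Selmer
group, `Sha[2]`). The proof is the case `g = 1` of `Results/MP_60d5ce_nt/ExactLawOfTwists.lean`, see
there.

Projects PRL (helper286, with helpers 160, 209, 212, 215, 216, 270, 303, 382, 416, 502, 547, 704, 711, 760,
803, 824, 847, 908, 957) and TG (helper784, with helpers 68, 81, 286, 382, 646, 688, 711, 760, 779, 781,
811, 886, 908, 973), and the libraries TS (helper875), PJ and JB (helper352) and PP (helper874).
-/

set_option autoImplicit false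
set_option linter.all false

namespace Pool.Agent.Results.MP_48b749_nt.MomentsAndExactLaw

open Polynomial
open Run7.h286.EllLaw (InFamily ExactLaw Values PositiveProportion)

/-- Let `k` be a finite field of characteristic at least five, `K = k(t)`, `(a, b)` in the family
(`deg a ≤ 4 N`, `deg b ≤ 6 N`, `N ≥ 1`, `4 a ^ 3 + 27 b ^ 2` squarefree, irreducible reduction at infinity),
`u ≠ 0` in `k`, and let `D` run through the squarefree polynomials of degree `m` with leading coefficient
`u`, prime to `4 a ^ 3 + 27 b ^ 2`, `m → ∞`. Let `E_D` be the twist `D y ^ 2 = x ^ 3 + a x + b`.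
(1) The average of the `j`-th power of the order of the 2-Selmer group of `E_D` tends to
`(1 + 2) ... (1 + 2 ^ j)`. (2) The proportion of the `D` for which it has order `2 ^ d` tends to `prob d`.
(3) The average of `φ(dimension)` tends to `∑ prob d φ(d)` for all `φ` of at most exponential growth.
(4) For every `D` the order is a power of two, `E_D(K)` has no 2-torsion,
`|Sel| = [E_D(K) : 2 E_D(K)] |Sha(E_D)[2]|`, and if the Selmer group is trivial, then `E_D(K)` is uniquely
divisible by two and the 2-primary part of the Tate-Shafarevich group is zero.
(5) Values: the sum of the `prob d` is `1`, `prob 0 > 0.2097`, `prob 0 + prob 1 > 0.629`; the mean is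
`∑ 1 / (2 ^ j + 1) < 1.2646`; the even dimensions have probability one half.
(6) A positive proportion of all `(a, b)` with `deg a ≤ 4 N`, `deg b ≤ 6 N` belongs to the family. -/
theorem result (k : Type) [Field k] [Finite k] (h6 : (6 : k) ≠ 0)
    (K : Type) [Field K] [Algebra k[X] K] [IsFractionRing k[X] K] :
    (∀ (N : ℕ) (a b : k[X]) (u : k), 1 ≤ N → InFamily N a b → u ≠ 0 → ExactLaw K a b u) ∧
    Values ∧ PositiveProportion k :=
  Run7.h286.EllLaw.main k h6 K

end Pool.Agent.Results.MP_48b749_nt.MomentsAndExactLaw
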