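import Pool.Agent.Run7.h875.TS.FinD

/-!
# A positive proportion of the quadratic twists satisfies the conjecture of Birch and
# Swinnerton-Dyer for arbitrarily many elliptic curves over `k(t)` at the same time

Let `k` be any finite field of characteristic at least five, `q` its order, and `K = k(t)`. Let
`E_1, ..., E_r` be elliptic curves `y ^ 2 = x ^ 3 + a_i x + b_i` over `K` without `K`-rational points of
order two such that for every `i` there is a prime `p_i` of `k[t]` at which `E_i` has (multiplicative)
reduction of type `I_1` and the other `E_j` have good reduction. For a squarefree polynomial `D` let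
`E_{i,D} : y ^ 2 = x ^ 3 + a_i D ^ 2 x + b_i D ^ 3` be the quadratic twist by `D`.

Theorem. There are a constant `c > 0` and `N` such that for every `n ≥ N` there are at least `c q ^ n`
squarefree polynomials `D` of degree `n` such that for ALL `i` at once the group `E_{i,D}(K)` is finite
of odd order and the 2-primary part of the Tate-Shafarevich group of `E_{i,D}` over `K` is zero. One may
moreover prescribe the class of `D` in `K_v^* / (K_v^*) ^ 2` at the place `v = ∞` and at any
finite set `T` of places different from the `p_i`. (At all places of bad reduction at once this is in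
general not possible, because of the signs of the functional equations.)

By the theorem of Artin, Tate and Milne all these curves satisfy the full conjecture of Birch and
Swinnerton-Dyer, with `L(1/q, E_{i,D}) ≠ 0`. So for a positive proportion of the quadratic extensions
`K(√D)` the conjecture for `E_i` over `K(√D)` is equivalent to the one over `K`, and
the rank of `E_i` does not grow, for all `i`. The `j`-invariants are not constant because of the `p_i`.

The proof. The average over the squarefree `D` of degree `n`, prime to the discriminants `Δ_i`, and
over all the local classes at their prime divisors, of the order of the 2-Selmer group of `E_{i,D}` is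
bounded: in one step (one more prime divisor `Q`, all primes of degree `m`) the order `s` becomes at most
`3/4 s + 5/4` on the average. For this one uses that the quadratic characters given by the elements of the
Selmer group, on the cubic field `K[x] / (x ^ 3 + a_i x + b_i)`, cancel: the Weil bound for curves
with an error that is linear in the degree (Bombieri-Stepanov), small representatives (Riemann's
inequality), and the effect of one prime on the Selmer group (isotropy of the local conditions for the
ternary quadratic forms attached to the elements, and reciprocity instead of Poitou-Tate duality).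
Hence for a positive proportion of the `D` of degree `n / A` the sum of the dimensions of the `r` Selmer
groups is bounded. They are made trivial by boundedly many more primes which have exactly one zero for one
curve and are inert for all the others, and at which a given class is not trivial; a last prime, inert
for all curves, corrects the local classes. The simultaneous prescription of the splitting in the `r` cubic
fields is obtained from the Weil bound for a plane model of their compositum, which is geometrically
irreducible over `k(t)` because of the `p_i`. The triviality of the Selmer groups gives the statements by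
descent over the completions.
-/

set_option autoImplicit false
set_option linter.all false

namespace Pool.Agent.Results.MP_48b749_nt.SimultaneousTwists

open Polynomial Filter Pool.Agent.TH115.GD
open scoped Classical

/-- The curves `y ^ 2 = x ^ 3 + a i * x + b i` have no rational point of order two, their discriminants
are divisible by the irreducible polynomials `p i` but not by their squares, and `p i` does not divide the
discriminants of the other curves. -/
structure IsFamily {k ι : Type} [Field k] (a b p : ι → k[X]) : Prop where
  no_point_of_order_two : ∀ (i : ι) (z : k[X]), z ^ 3 + a i * z + b i ≠ 0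
  irreducible : ∀ i, Irreducible (p i)
  dvd : ∀ i, p i ∣ 4 * a i ^ 3 + 27 * b i ^ 2
  not_sq_dvd : ∀ i, ¬ p i ^ 2 ∣ 4 * a i ^ 3 + 27 * b i ^ 2
  not_dvd : ∀ i j, i ≠ j → ¬ p i ∣ 4 * a j ^ 3 + 27 * b j ^ 2

/-- The curve `y ^ 2 = x ^ 3 + a D ^ 2 x + b D ^ 3` over `K = k(t)`, the quadratic twist by `D` of the
curve `y ^ 2 = x ^ 3 + a x + b`. -/
noncomputable def twist {k : Type} [Field k] (K : Type) [Field K] [Algebra k[X] K]
    (a b D : k[X]) : WeierstrassCurve K :=
  ⟨0, 0, 0, algebraMap k[X] K (a * D ^ 2), algebraMap k[X] K (b * D ^ 3)⟩

/-- The twists by `D` of all the curves have finite groups of `K`-rational points of odd order, and the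
2-primary parts of their Tate-Shafarevich groups over `K` are zero. -/
def AllTrivial {k ι : Type} [Field k] (K : Type) [Field K] [Algebra k[X] K]
    [IsFractionRing k[X] K] (a b : ι → k[X]) (D : k[X]) : Prop :=
  ∀ i, Finite (Pt (twist K (a i) (b i) D) K) ∧ Odd (Nat.card (Pt (twist K (a i) (b i) D) K)) ∧
    ShaTwo k (twist K (a i) (b i) D)

/-- The polynomials `D` and `D₀` have the same behaviour at `∞` and at the primes in `T`: we have
`D = D₀ D₁` with a polynomial `D₁` which is a square in the completions at these places (of even degree
and monic, and congruent to a square `z ^ 2` prime to `P` modulo the `P` in `T`). -/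
def SameBehaviour {k : Type} [Field k] (T : Finset k[X]) (D₀ D : k[X]) : Prop :=
  ∃ D₁ : k[X], D = D₀ * D₁ ∧ D₁.Monic ∧ Even D₁.natDegree ∧
    ∀ P ∈ T, ∃ z : k[X], ¬ P ∣ z ∧ P ∣ z ^ 2 - D₁

theorem result (k ι : Type) [Field k] [Finite k] [Finite ι] (h6 : (6 : k) ≠ 0) (K : Type) [Field K]
    [Algebra k[X] K] [IsFractionRing k[X] K] (a b p : ι → k[X]) (h : IsFamily a b p)
    (T : Finset k[X]) (hT : ∀ P ∈ T, Irreducible P ∧ ∀ i, ¬ P ∣ p i) (D₀ : k[X])
    (hD₀ : Squarefree D₀) (hp : ∀ i, ¬ p i ∣ D₀) :
    ∃ c : ℝ, 0 < c ∧ ∀ᶠ n : ℕ in atTop, Even (n + D₀.natDegree) →
      c * (Nat.card k : ℝ) ^ n ≤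
        ({D : k[X] | Squarefree D ∧ D.natDegree = n ∧ SameBehaviour T D₀ D ∧
          AllTrivial K a b D}.ncard : ℝ) := by
  have hD : Run7.h875.TS.Data a b p :=
    ⟨fun i => Run7.h875.TS.irr_of_no_root (h.no_point_of_order_two i), h.irreducible, h.dvd,
      h.not_sq_dvd, h.not_dvd⟩
  obtain ⟨c, hc, N₀, hN⟩ := Run7.h875.TS.finD k ι a b p h6 hD T hT D₀ hD₀ hp K
  refine ⟨c, hc, ?_⟩
  filter_upwards [eventually_ge_atTop N₀] with n hn hev
  refine (hN n hn hev).trans (Nat.cast_le.2 (Set.ncard_le_ncard ?_
    ((Run7.h875.TS.fin_deg k n).subset fun D hD => hD.2.1)))
  rintro D ⟨h1, h2, ⟨D₁, h3, h4, h5⟩, hg⟩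
  refine ⟨h2, h1, ⟨D₁, h4, h3, ?_, h5⟩, fun i => hg i⟩
  have e : D.natDegree = D₀.natDegree + D₁.natDegree := by
    rw [h4, natDegree_mul hD₀.ne_zero h3.ne_zero]
  rw [← h1, e] at hev
  have e2 : D₀.natDegree + D₁.natDegree + D₀.natDegree = D₁.natDegree + 2 * D₀.natDegree := by ring
  rw [e2, Nat.even_add] at hev
  exact hev.2 (even_two_mul _)

end Pool.Agent.Results.MP_48b749_nt.SimultaneousTwists
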