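import Pool.Agent.Run7.h375.UC.Fin

/-!
# Birch and Swinnerton-Dyer over global function fields: one curve decides

By the theorem of Artin, Tate and Milne quoted in the problem file, Q1 for `E / K` is equivalent to
the finiteness of `Ш(E/K)`, that is, to `T_ℓ Ш(E/K) = 0` for one prime `ℓ` (any prime, also the
characteristic), and Q1 is known for isotrivial curves.

Let `k` be a finite field of ANY characteristic (also `2` and `3`) and `C` the curve
`y² + (t - 1728) x y = x³ - 36 (t - 1728)³ x - (t - 1728)⁵` over `k(t)`.  It is a rational elliptic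
surface, so that Q1 is known for `C / k(t)`.

A *free step* is an extension `L / F` of finite separable extensions of `k(t)` which is Galois of
prime degree, unramified at EVERY place, and in which all places of `F` above `t = ∞` or above a
prime dividing a given polynomial `M ≠ 0` split completely.  (With `M = t (t - 1728)` all places of
bad reduction of `C` split completely.)

The theorem: `T_ℓ Ш(E/K) = 0` for ALL function fields `K` of one variable over `k` and ALL elliptic
curves `E / K` with `j(E)` transcendental over `k` (all non-isotrivial curves; for `k = 𝔽_p` these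
are all non-isotrivial curves in characteristic `p`) if and only if `T_ℓ Ш(C/k(t)) = 0` and
`T_ℓ Ш(C) ⊗ ℚ` does not grow in free steps.

`K` may be inseparable over `k(j(E))`, and the characteristic may be `2` or `3`.
-/

set_option autoImplicit false

namespace Pool.Agent.Results.MP_48b749_nt.UniversalCurve

open IntermediateField Module Polynomial WeierstrassCurve
open scoped Pointwise Classical

section defs

variable {K Ω : Type} [Field K] [Field Ω] [Algebra K Ω]

/-- The group `E(Ω)`. -/
abbrev Points (E : WeierstrassCurve K) (Ω : Type) [Field Ω] [Algebra K Ω] : Type :=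
  (E.baseChange Ω).toAffine.Point

/-- The action of `σ` on `E(Ω)`, on the coordinates of the points. -/
noncomputable def act (E : WeierstrassCurve K) (σ : Gal(Ω/K)) : Points E Ω →+ Points E Ω :=
  Affine.Point.map (W' := E.toAffine) σ.toAlgHom

/-- `c` is a coboundary on the subgroup `H`. -/
def IsCoboundary (E : WeierstrassCurve K) (H : Subgroup Gal(Ω/K))
    (c : Gal(Ω/K) → Points E Ω) : Prop :=
  ∃ P : Points E Ω, ∀ σ ∈ H, c σ = act E σ P - P

/-- `c` represents a class of `Ш(E/F)`: on `Gal(Ω/F)` it is a continuous cocycle, and it is a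
coboundary on all decomposition groups (the stabilizers of the nontrivial valuation rings of `Ω`).
Only the values of `c` on `Gal(Ω/F)` matter. -/
structure IsSha (E : WeierstrassCurve K) (F : IntermediateField K Ω)
    (c : Gal(Ω/K) → Points E Ω) : Prop where
  cocycle : ∀ σ ∈ F.fixingSubgroup, ∀ τ ∈ F.fixingSubgroup, c (σ * τ) = c σ + act E σ (c τ)
  continuous : ∃ M : IntermediateField K Ω, FiniteDimensional K M ∧
    ∀ σ ∈ F.fixingSubgroup, σ ∈ M.fixingSubgroup → c σ = 0
  locallyTrivial : ∀ A : ValuationSubring Ω, A ≠ ⊤ →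
    IsCoboundary E (F.fixingSubgroup ⊓ MulAction.stabilizer Gal(Ω/K) A) c

/-- `x` represents an element of `T_ℓ Ш(E/F)`: classes with `x 0 = 0` and `ℓ x (i + 1) = x i`. -/
structure IsTateElement (ℓ : ℕ) (E : WeierstrassCurve K) (F : IntermediateField K Ω)
    (x : ℕ → Gal(Ω/K) → Points E Ω) : Prop where
  sha : ∀ i, IsSha E F (x i)
  zero : IsCoboundary E F.fixingSubgroup (x 0)
  step : ∀ i, IsCoboundary E F.fixingSubgroup (ℓ • x (i + 1) - x i)

/-- `T_ℓ Ш(E/F) = 0`. -/
def TateModuleZero (ℓ : ℕ) (E : WeierstrassCurve K) (F : IntermediateField K Ω) : Prop :=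
  ∀ x, IsTateElement ℓ E F x → ∀ i, IsCoboundary E F.fixingSubgroup (x i)

/-- `T_ℓ Ш(E/K) = 0`. -/
def ZeroOverBase (ℓ : ℕ) (E : WeierstrassCurve K) (Ω : Type) [Field Ω] [Algebra K Ω] : Prop :=
  TateModuleZero ℓ E (⊥ : IntermediateField K Ω)

/-- Every element of `T_ℓ Ш(E/L)` has a nonzero multiple that comes from `T_ℓ Ш(E/F)`. -/
def NoGrowth (ℓ : ℕ) (E : WeierstrassCurve K) (F L : IntermediateField K Ω) : Prop :=
  ∀ x, IsTateElement ℓ E L x → ∃ m : ℕ, m ≠ 0 ∧ ∃ y, IsTateElement ℓ E F y ∧
    ∀ i, IsCoboundary E L.fixingSubgroup (m • x i - y i)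

/-- A free step: `L / F` is finite over `K`, Galois of prime degree, unramified everywhere, and all
places of `F` with a pole at `x` or a zero at `m` are completely split in `L`. -/
structure FreeStep (x m : Ω) (F L : IntermediateField K Ω) : Prop where
  finite : FiniteDimensional K L
  le : F ≤ L
  galois : ∀ σ ∈ F.fixingSubgroup, ∀ y ∈ L, σ y ∈ L
  prime : ∃ r : ℕ, r.Prime ∧ finrank K L = r * finrank K F
  unramified : ∀ A : ValuationSubring Ω, ∀ σ ∈ F.fixingSubgroup,
    σ • A = A → (∀ y ∈ A, σ y - y ∈ A.nonunits) → σ ∈ L.fixingSubgroup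
  splits : ∀ A : ValuationSubring Ω, x ∉ A ∨ m ∈ A.nonunits →
    ∀ σ ∈ F.fixingSubgroup, σ • A = A → σ ∈ L.fixingSubgroup

/-- `T_ℓ Ш(E) ⊗ ℚ` does not grow in free steps. -/
def NoGrowthInFreeSteps (ℓ : ℕ) (E : WeierstrassCurve K) (x m : Ω) : Prop :=
  ∀ F L : IntermediateField K Ω, FreeStep x m F L → NoGrowth ℓ E F L

/-- `K` is a function field of one variable over `k`. -/
def IsFunctionField (k K : Type) [Field k] [Field K] [Algebra k K] : Prop :=
  ∃ x : K, Transcendental k x ∧ FiniteDimensional k⟮x⟯ K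

/-- `T_ℓ Ш(E/K) = 0` for all elliptic curves `E / K` with transcendental `j`-invariant. -/
def ZeroOver (k K Ω : Type) [Field k] [Field K] [Algebra k K] [Field Ω] [Algebra K Ω] (ℓ : ℕ) :
    Prop :=
  ∀ (E : WeierstrassCurve K) [E.IsElliptic], Transcendental k E.j → ZeroOverBase ℓ E Ω

/-- `T_ℓ Ш(E/K) = 0` for all function fields `K / k` and all elliptic curves `E / K` with
`j`-invariant transcendental over `k`. -/
def ZeroForAllCurves (k : Type) [Field k] (ℓ : ℕ) : Prop :=
  ∀ (K Ω : Type) [Field K] [Algebra k K] [Field Ω] [Algebra K Ω] [IsSepClosure K Ω],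
    IsFunctionField k K → ZeroOver k K Ω ℓ

/-- The curve `C : y² + (t - 1728) x y = x³ - 36 (t - 1728)³ x - (t - 1728)⁵` over `k(t)`. -/
noncomputable def universalCurve (k : Type) [Field k] : WeierstrassCurve (RatFunc k) :=
  ⟨RatFunc.X - 1728, 0, 0, -36 * (RatFunc.X - 1728) ^ 3, -(RatFunc.X - 1728) ^ 5⟩

/-- The polynomial `f` as an element of the extension `Ω` of `k(t)`. -/
noncomputable def embed {k : Type} [Field k] (Ω : Type) [Field Ω] [Algebra (RatFunc k) Ω]
    (f : k[X]) : Ω :=
  algebraMap (RatFunc k) Ω (algebraMap k[X] (RatFunc k) f)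

end defs

section bridge

open Run7.h375.SH Run7.h375.UC

variable {K Ω : Type} [Field K] [Field Ω] [Algebra K Ω] [IsGalois K Ω]
  {E : WeierstrassCurve K} {F L : IntermediateField K Ω} {ℓ : ℕ}

set_option linter.unusedSectionVars false

theorem sha_iff {c : Gal(Ω/K) → Points E Ω} :
    IsSha E F c ↔ Sha (actH (Ω := Ω) E) (dec K Ω) F.fixingSubgroup c := by
  constructor
  · intro h
    obtain ⟨M, hM, h1⟩ := h.continuous
    exact ⟨h.cocycle, ⟨M.fixingSubgroup, M.fixingSubgroup_isOpen, fun σ h2 h3 => h1 σ h3 h2⟩,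
      fun w => h.locallyTrivial w.1 w.2⟩
  · intro h
    obtain ⟨U, hU, h1⟩ := h.smooth
    obtain ⟨M, hM, h2⟩ := exists_fd_of_open hU
    exact ⟨h.coc, ⟨M, hM, fun σ h3 h4 => h1 σ (h2 h4) h3⟩, fun A hA => h.loc ⟨A, hA⟩⟩

theorem tate_iff {x : ℕ → Gal(Ω/K) → Points E Ω} :
    IsTateElement ℓ E F x ↔ Tate (actH (Ω := Ω) E) (dec K Ω) ℓ F.fixingSubgroup x :=
  ⟨fun h => ⟨fun i => sha_iff.1 (h.sha i), h.zero, h.step⟩,
    fun h => ⟨fun i => sha_iff.2 (h.sha i), h.zero, h.step⟩⟩

theorem zero_iff : TateModuleZero ℓ E F ↔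
    Free (actH (Ω := Ω) E) (dec K Ω) ℓ F.fixingSubgroup :=
  forall_congr' fun _ => imp_congr tate_iff Iff.rfl

theorem growth_iff : NoGrowth ℓ E F L ↔
    Run7.h375.SH.NoGrowth (actH (Ω := Ω) E) (dec K Ω) ℓ F.fixingSubgroup L.fixingSubgroup :=
  forall_congr' fun _ => imp_congr tate_iff (exists_congr fun _ => and_congr Iff.rfl
    (exists_congr fun _ => and_congr tate_iff Iff.rfl))

theorem zero_bot_iff : ZeroOverBase ℓ E Ω ↔
    Free (actH (Ω := Ω) E) (dec K Ω) ℓ (⊤ : Subgroup Gal(Ω/K)) := by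
  rw [ZeroOverBase, zero_iff, IntermediateField.fixingSubgroup_bot]

theorem reduction {x m : Ω} (hB : HasBase K Ω fun A => x ∉ A ∨ m ∈ A.nonunits) (hℓ : ℓ.Prime)
    (E : WeierstrassCurve K) :
    (∀ F : IntermediateField K Ω, FiniteDimensional K F → TateModuleZero ℓ E F) ↔
      ZeroOverBase ℓ E Ω ∧ NoGrowthInFreeSteps ℓ E x m := by
  constructor
  · intro h
    refine ⟨h ⊥ inferInstance, fun F L hs => ?_⟩
    have hL := hs.finite
    rw [growth_iff]
    exact NoGrowth.of_free (zero_iff.1 (h L hL))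
  · rintro ⟨h0, h1⟩ F hF
    rw [zero_iff]
    refine red_main hB _ _ hℓ (zero_bot_iff.1 h0) ?_ F
    intro F L hL hle hn hr hu hs
    exact growth_iff.1 (h1 F L ⟨hL, hle, hn, hr, fun A σ h2 h3 h4 => hu A σ h2 ⟨h3, h4⟩,
      fun A h2 σ h3 h4 => hs A h2 σ h3 h4⟩)

theorem isUnit_aux (k : Type) [Field k] : IsUnit (RatFunc.X : RatFunc k) ∧
    IsUnit ((RatFunc.X : RatFunc k) - 1728) := by
  refine ⟨RatFunc.X_ne_zero.isUnit, (sub_ne_zero.2 fun h => ?_).isUnit⟩
  have h1 : algebraMap k[X] (RatFunc k) X = algebraMap k[X] (RatFunc k) (C 1728) := by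
    rw [RatFunc.algebraMap_X, h, RatFunc.algebraMap_C]
    exact (map_ofNat _ 1728).symm
  have h2 := RatFunc.algebraMap_injective k h1
  have h3 := congrArg (fun f => f.coeff 1) h2
  simp at h3

theorem universal_j (k : Type) [Field k] : ∃ h : (universalCurve k).IsElliptic,
    @WeierstrassCurve.j _ _ (universalCurve k) h = RatFunc.X := by
  have h1 : Fact (IsUnit (RatFunc.X : RatFunc k)) := ⟨(isUnit_aux k).1⟩
  have h2 : Fact (IsUnit ((RatFunc.X : RatFunc k) - 1728)) := ⟨(isUnit_aux k).2⟩
  have h3 : (ofJNe0Or1728 (RatFunc.X : RatFunc k)).IsElliptic := inferInstance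
  exact ⟨h3, ofJNe0Or1728_j _⟩

end bridge

section main

open Run7.h375.SH Run7.h375.UC

set_option linter.unusedSectionVars false

variable {k Ω : Type} [Field k] [Finite k] [Field Ω] [Algebra (RatFunc k) Ω]
  [hΩ : IsSepClosure (RatFunc k) Ω] {ℓ : ℕ}

theorem forward (h : ZeroForAllCurves k ℓ) (F : IntermediateField (RatFunc k) Ω)
    [FiniteDimensional (RatFunc k) F] : TateModuleZero ℓ (universalCurve k) F := by
  have hG : IsGalois (RatFunc k) Ω := IsSepClosure.isGalois
  have hsc : IsSepClosed Ω := hΩ.sep_closed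
  obtain ⟨hell, hj⟩ := universal_j k
  let _ : Algebra k F := ((algebraMap (RatFunc k) F).comp (algebraMap k (RatFunc k))).toAlgebra
  have hst : IsScalarTower k (RatFunc k) F := IsScalarTower.of_algebraMap_eq fun _ => rfl
  have hsep : Algebra.IsSeparable F Ω := Algebra.isSeparable_tower_top_of_isSeparable (RatFunc k) F Ω
  have hSF : IsSepClosure F Ω := ⟨hsc, hsep⟩
  obtain ⟨h1, h2⟩ := ff_of (k := k) (K := F)
  have h3 : ((universalCurve k).map (algebraMap (RatFunc k) F)).j =
      algebraMap (RatFunc k) F RatFunc.X := by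
    rw [map_j, hj]
  have h4 := h F Ω ⟨_, h1, h2⟩ ((universalCurve k).map (algebraMap (RatFunc k) F))
    (by rw [h3]; exact h1)
  rw [zero_iff]
  exact free_base _ F (zero_bot_iff.1 h4)

theorem backward (hℓ : ℓ.Prime) (h : ∀ F : IntermediateField (RatFunc k) Ω,
    FiniteDimensional (RatFunc k) F → TateModuleZero ℓ (universalCurve k) F) :
    ZeroForAllCurves k ℓ := by
  intro K Ω' _ _ _ _ hΩ' hK E _ hE
  have hG : IsGalois (RatFunc k) Ω := IsSepClosure.isGalois
  have hG' : IsGalois K Ω' := IsSepClosure.isGalois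
  have hsc' : IsSepClosed Ω' := hΩ'.sep_closed
  obtain ⟨x, -, hx⟩ := hK
  obtain ⟨i, hi, hfd⟩ := exists_alg hx hE
  obtain ⟨hell, hj⟩ := universal_j k
  let _ : Algebra (RatFunc k) Ω' := ((algebraMap K Ω').comp (algebraMap (RatFunc k) K)).toAlgebra
  have hst : IsScalarTower (RatFunc k) K Ω' := IsScalarTower.of_algebraMap_eq fun _ => rfl
  obtain ⟨p, hp⟩ := CharP.exists k
  have hpp : p.Prime := CharP.char_is_prime k p
  have hp1 : CharP (RatFunc k) p :=
    charP_of_injective_algebraMap (algebraMap k (RatFunc k)).injective p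
  rw [zero_bot_iff]
  have hj1 : ((universalCurve k).map (algebraMap (RatFunc k) K)).j = E.j := by
    rw [map_j, hj, hi]
  have hj2 : (E.map (algebraMap K Ω')).j =
      (((universalCurve k).map (algebraMap (RatFunc k) K)).map (algebraMap K Ω')).j := by
    rw [map_j, map_j, hj1]
  obtain ⟨V, hV⟩ := exists_variableChange_of_j_eq _ _ hj2
  refine free_of_iso V hV hℓ fun L hL => free_of_sep hpp _ L hℓ ?_
  let S := inter (RatFunc k) L
  have hS : FiniteDimensional (RatFunc k) S := inter_fd L
  let e : Ω ≃ₐ[RatFunc k] separableClosure (RatFunc k) Ω' := IsSepClosure.equiv (RatFunc k) _ _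
  have hfd2 : FiniteDimensional (RatFunc k) (S.comap e.toAlgHom) := by
    let f : (S.comap e.toAlgHom) →ₗ[RatFunc k] S :=
      { toFun := fun x => ⟨e x, x.2⟩
        map_add' := fun x y => Subtype.ext (map_add e (x : Ω) (y : Ω))
        map_smul' := fun c x => Subtype.ext (map_smul e c (x : Ω)) }
    refine FiniteDimensional.of_injective f fun x y hxy => ?_
    exact Subtype.ext (e.injective (congrArg Subtype.val hxy))
  exact free_change e _ S hℓ (zero_iff.1 (h _ hfd2))

/-- **One curve decides.**  All function fields over `k`, all non-isotrivial elliptic curves over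
them, any prime `ℓ`, any nonzero polynomial `M`. -/
theorem result (k Ω : Type) [Field k] [Finite k] [Field Ω] [Algebra (RatFunc k) Ω]
    [IsSepClosure (RatFunc k) Ω] (ℓ : ℕ) (hℓ : ℓ.Prime) (M : k[X]) (hM : M ≠ 0) :
    ZeroForAllCurves k ℓ ↔ ZeroOverBase ℓ (universalCurve k) Ω ∧
      NoGrowthInFreeSteps ℓ (universalCurve k) (embed (k := k) Ω X) (embed Ω M) := by
  have hG : IsGalois (RatFunc k) Ω := IsSepClosure.isGalois
  have hsc : IsSepClosed Ω := IsSepClosure.sep_closed (RatFunc k)
  have hred := reduction (hasBase_ff (k := k) (K := RatFunc k) (Ω := Ω) hM) hℓ (universalCurve k)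
  exact ⟨fun h => hred.1 fun F hF => forward h F, fun h => backward hℓ (hred.2 h)⟩

end main

end Pool.Agent.Results.MP_48b749_nt.UniversalCurve
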